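import Pool.Agent.helper73.SPV.Spec

set_option autoImplicit false

namespace Pool.Agent.SPV

open Matrix Module Pool.Agent.SHL Pool.Agent.H48SL NumberField

/-- the inclusion of a group of integral elements in the group of units of the ring of integers -/
private noncomputable def UFG_hom (K : Type) [Field K] [NumberField K] (H : Subgroup Kˣ)
    (hint : ∀ u ∈ H, IsIntegral ℤ (u : K)) : H →* (𝓞 K)ˣ where
  toFun u := ⟨⟨((u : Kˣ) : K), hint _ u.2⟩, ⟨((u : Kˣ)⁻¹ : Kˣ), hint _ (H.inv_mem u.2)⟩, by
    ext
    simp, by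
    ext
    simp⟩
  map_one' := by
    apply Units.ext
    apply RingOfIntegers.ext
    rfl
  map_mul' x y := by
    apply Units.ext
    apply RingOfIntegers.ext
    rfl

private theorem UFG_hom_val (K : Type) [Field K] [NumberField K] (H : Subgroup Kˣ)
    (hint : ∀ u ∈ H, IsIntegral ℤ (u : K)) (u : H) :
    (((UFG_hom K H hint u : (𝓞 K)ˣ) : 𝓞 K) : K) = ((u : Kˣ) : K) := rfl

theorem UFG : UFG_stmt := by
  intro K _ _ H hint
  let φ := UFG_hom K H hint
  have hφ : Function.Injective φ := by
    intro x y hxy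
    have h1 := UFG_hom_val K H hint x
    have h2 := UFG_hom_val K H hint y
    have h3 : UFG_hom K H hint x = UFG_hom K H hint y := hxy
    rw [h3, h2] at h1
    apply Subtype.ext
    apply Units.ext
    exact h1.symm
  let ψ : Additive H →ₗ[ℤ] Additive (𝓞 K)ˣ := (MonoidHom.toAdditive φ).toIntLinearMap
  have hψ : Function.Injective ψ := hφ
  have hN : IsNoetherian ℤ (Additive (𝓞 K)ˣ) := isNoetherian_of_isNoetherianRing_of_finite ℤ _
  have hfin : Module.Finite ℤ (Additive H) := Module.Finite.of_injective ψ hψ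
  have h4 : AddGroup.FG (Additive H) := Module.Finite.iff_addGroup_fg.mp hfin
  exact GroupFG.iff_add_fg.mpr h4

end Pool.Agent.SPV
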